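import Pool.Agent.U918.LP.Lin

/-!
# Prime triplets of both shapes and a fourth prime `n + 2 h`, for almost all `h`, with arbitrary weights on the triplets

Let `w` be ANY bounded real weight on the primes `n ≤ X` with `n + 6` and one of `n + 2`, `n + 4` prime, for example the indicator of an arbitrary set of them. For all but
a share `log ^ (-U) X` of the vectors `(h₁, …, h_r)` of integers `1 ≤ h_i ≤ B X`, the sum of `w n` over those `n` for
which all the numbers `n + 2 h_i` are prime is the sum of `w n ∏ 1 / (V z log (n + 2 h_i))` over those `n`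
for which all the numbers `n + 2 h_i` are free of primes `≤ z`, up to an error `X / log ^ D X`; here `z` is a power
of `log X`, `V z = ∏_{p ≤ z} (1 - 1/p)`, and this holds simultaneously for all initial intervals `n ≤ y`, `y ≤ X`, and
all residue classes of `n` to all moduli up to `log ^ K X`.

The two shapes of the question are `h = 4` with `w` the indicator of `n + 2` prime, and `h = 5` with `w` the indicator
of `n + 4` prime.
-/

set_option autoImplicit false

open Finset

namespace Pool.Agent.Results.MP_092512_nt.ArbitraryWeights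

/-- the product of `1 - 1/p` over the primes `p ≤ z` -/
noncomputable def V (z : ℕ) : ℝ := ∏ p ∈ (Icc 1 z).filter Nat.Prime, (1 - 1 / (p : ℝ))

/-- `n`, `n + 6` and one of `n + 2`, `n + 4` are prime -/
def Triplet (n : ℕ) : Prop := n.Prime ∧ (n + 6).Prime ∧ ((n + 2).Prime ∨ (n + 4).Prime)

open Classical in
/-- the sum of `w n` over the `n ≤ y`, `n ≡ a mod q`, with `Triplet n`, for which all the numbers `n + 2 h i` are
prime -/
noncomputable def primeSum {r : ℕ} (w : ℕ → ℝ) (h : Fin r → ℕ) (q a y : ℕ) : ℝ :=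
  ∑ n ∈ (Icc 1 y).filter (fun n => Triplet n ∧ n ≡ a [MOD q] ∧ ∀ i, (n + 2 * h i).Prime), w n

open Classical in
/-- the sum of `w n / ∏ (V z · log (n + 2 h i))` over the `n ≤ y`, `n ≡ a mod q`, with `Triplet n`, for which no
prime `l ≤ z` divides any of the numbers `n + 2 h i` -/
noncomputable def modelSum {r : ℕ} (z : ℕ) (w : ℕ → ℝ) (h : Fin r → ℕ) (q a y : ℕ) : ℝ :=
  ∑ n ∈ (Icc 1 y).filter (fun n => Triplet n ∧ n ≡ a [MOD q] ∧ ∀ i, ∀ l : ℕ, l.Prime → l ≤ z → ¬ l ∣ n + 2 * h i),
    w n * ∏ i, (V z * Real.log ((n + 2 * h i : ℕ) : ℝ))⁻¹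

open Classical in
/-- **The theorem.** For all `r`, `B`, `U`, `D`, `K` there is `B₀` such that for every `E`, every large `X`, every
integer `z` with `log ^ B₀ X ≤ z ≤ log ^ E X` and EVERY weight `w` with `|w n| ≤ 1`: for all but at most
`X ^ r / log ^ U X` of the vectors `h` of integers `1 ≤ h i ≤ B X`, one has for all `y ≤ X`, all moduli
`1 ≤ q ≤ log ^ K X` and all classes `a` that `primeSum w h q a y` and `modelSum z w h q a y` differ by at most
`X / log ^ D X`. -/
theorem result (r B U D K : ℕ) :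
    ∃ B₀ : ℕ, ∀ E : ℕ, ∃ X₀ : ℕ, ∀ X : ℕ, X₀ ≤ X → ∀ z : ℕ, Real.log X ^ B₀ ≤ z → (z : ℝ) ≤ Real.log X ^ E →
    ∀ w : ℕ → ℝ, (∀ n, |w n| ≤ 1) →
    (((Fintype.piFinset (fun _ : Fin r => Icc 1 (B * X))).filter (fun h =>
      ∃ y ≤ X, ∃ q a : ℕ, 1 ≤ q ∧ (q : ℝ) ≤ Real.log X ^ K ∧
        (X : ℝ) / Real.log X ^ D < |primeSum w h q a y - modelSum z w h q a y|)).card : ℝ) ≤
      (X : ℝ) ^ r / Real.log X ^ U := by
  obtain ⟨B₀, h0⟩ := Pool.Agent.U918.LP.lin r Triplet (fun _ => 1) (fun _ => 2) (fun _ => 0)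
    (fun _ => by norm_num) (fun _ => by norm_num) (fun _ => by norm_num) B U D K
  refine ⟨B₀, fun E => ?_⟩
  obtain ⟨x0, hx0⟩ := h0 E
  refine ⟨x0, fun X hX z hz1 hz2 w hw => ?_⟩
  refine le_trans (le_of_eq ?_) (hx0 X hX z hz1 hz2 w hw)
  have ev : ∀ n h : ℕ, Pool.Agent.U918.LP.lv 1 2 0 n h = n + 2 * h := by
    intro n h
    unfold Pool.Agent.U918.LP.lv
    push_cast
    omega
  have e1 : ∀ (h : Fin r → ℕ) (q a y : ℕ), primeSum w h q a y =
      Pool.Agent.U918.LP.PL Triplet (fun _ => 1) (fun _ => 2) (fun _ => 0) w h q a y := by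
    intro h q a y
    unfold primeSum Pool.Agent.U918.LP.PL
    simp only [ev]
  have e2 : ∀ (h : Fin r → ℕ) (q a y : ℕ), modelSum z w h q a y =
      Pool.Agent.U918.LP.ML Triplet (fun _ => 1) (fun _ => 2) (fun _ => 0) z w h q a y := by
    intro h q a y
    unfold modelSum Pool.Agent.U918.LP.ML
    simp only [ev]
    rfl
  simp only [e1, e2]

end Pool.Agent.Results.MP_092512_nt.ArbitraryWeights
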