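import Mathlib
import Pool.Agent.U98.TY.A9

set_option autoImplicit false

/-!
# The shapes of consecutive almost prime quadruples: one third and two thirds

Call `n` rough at the level `w` if it has no prime factors `p ≤ w`. A quadruple of the first shape at `n` consists of
rough numbers `n`, `n + 2`, `n + 6`, `n + 8`, one of the second shape of rough numbers `n`, `n + 4`, `n + 6`, `n + 10`.
The conjecture of Hardy and Littlewood says that quadruples of primes of the second shape are twice as frequent as
those of the first shape. Here all quadruples of rough numbers of both shapes are considered, in the order of `n`, and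
their shapes form a sequence of independent trials: for all `l` and `ε` there is `K` such that for all large `w`, in ALL
intervals of length `≥ w ^ K`, the `l + 1` shapes of consecutive quadruples are asymptotically independent, with the
probabilities `1/3` and `2/3`, and independent of the `l` distances, which have the exponential law. The second law
gives the residues modulo any multiple `q` of `30`.

Proof: the Poisson laws for typed systems (`Pool.Agent.U98.TY`), for the system which consists of the first shape in the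
class `11` and the second shape in the classes `7` and `13` modulo `30`; quadruples of different shapes can overlap.
-/

namespace Pool.Agent.Results.MP_092512_nt.OneThirdTwoThirds

open Finset

/-- `n` has no prime factors `p ≤ w` -/
def Rough (w n : ℕ) : Prop := ∀ p : ℕ, p.Prime → p ≤ w → ¬ p ∣ n

/-- a quadruple of the first shape at `n` -/
def First (w n : ℕ) : Prop := Rough w n ∧ Rough w (n + 2) ∧ Rough w (n + 6) ∧ Rough w (n + 8)

/-- a quadruple of the second shape at `n` -/
def Second (w n : ℕ) : Prop := Rough w n ∧ Rough w (n + 4) ∧ Rough w (n + 6) ∧ Rough w (n + 10)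

/-- a quadruple of one of the two shapes at `n` -/
def Quadruple (w n : ℕ) : Prop := First w n ∨ Second w n

/-- the next quadruple -/
noncomputable def next (w n : ℕ) : ℕ := sInf {m | n < m ∧ Quadruple w m}

/-- the density of the quadruples of both shapes -/
noncomputable def density (w : ℕ) : ℝ :=
  1 / 10 * ∏ p ∈ (Icc 7 w).filter Nat.Prime, (1 - 4 / (p : ℝ))

/-- The number of the quadruples at `n ∈ (Z, Z + Y]` such that this quadruple and the next `l` quadruples have the
shapes `σ 0, ..., σ l` (`true` is the first shape) and the `l` distances are in `(s j, T j]`. -/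
noncomputable def shapeCount (w l : ℕ) (σ : ℕ → Bool) (s T : ℕ → ℕ) (Z Y : ℕ) : ℕ :=
  Set.ncard {n : ℕ | Z < n ∧ n ≤ Z + Y ∧ Quadruple w n ∧
    (∀ j ≤ l, (First w ((next w)^[j] n) ↔ σ j = true)) ∧
    ∀ j < l, s j < (next w)^[j + 1] n - (next w)^[j] n ∧ (next w)^[j + 1] n - (next w)^[j] n ≤ T j}

/-- the possible residues modulo `q` of quadruples, for `30 ∣ q` -/
def residues (q : ℕ) : Finset ℕ :=
  (range q).filter (fun b => (b % 6 = 5 ∧ Nat.Coprime (b * (b + 2) * (b + 6) * (b + 8)) q) ∨
    (b % 6 = 1 ∧ Nat.Coprime (b * (b + 4) * (b + 6) * (b + 10)) q))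

/-- the density of the quadruples in terms of `q`, for `30 ∣ q` -/
noncomputable def densityQ (w q : ℕ) : ℝ :=
  (residues q).card / (q : ℝ) * ∏ p ∈ (Icc 1 w).filter (fun p => p.Prime ∧ ¬ p ∣ q), (1 - 4 / (p : ℝ))

/-- The number of the quadruples at `n ∈ (Z, Z + Y]` such that `n` and the places of the next `l` quadruples are
congruent to `b 0, ..., b l` modulo `q` and the `l` distances are in `(s j, T j]`. -/
noncomputable def residueCount (w q l : ℕ) (b s T : ℕ → ℕ) (Z Y : ℕ) : ℕ :=
  Set.ncard {n : ℕ | Z < n ∧ n ≤ Z + Y ∧ Quadruple w n ∧ (∀ j ≤ l, (next w)^[j] n % q = b j) ∧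
    ∀ j < l, s j < (next w)^[j + 1] n - (next w)^[j] n ∧ (next w)^[j + 1] n - (next w)^[j] n ≤ T j}

open Pool.Agent.U98.TY

/-- the shape as a function of the residue -/
def D (i : ℕ) : Finset ℕ := if i % 6 = 5 then {0, 2, 6, 8} else {0, 4, 6, 10}

lemma D_cases (i : ℕ) : D i = {0, 2, 6, 8} ∨ D i = {0, 4, 6, 10} := by
  unfold D
  split_ifs
  · exact Or.inl rfl
  · exact Or.inr rfl

lemma two_dvd {q : ℕ} (h : 30 ∣ q) : 2 ∣ q := (by norm_num : (2 : ℕ) ∣ 30).trans h
lemma three_dvd {q : ℕ} (h : 30 ∣ q) : 3 ∣ q := (by norm_num : (3 : ℕ) ∣ 30).trans h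
lemma five_dvd {q : ℕ} (h : 30 ∣ q) : 5 ∣ q := (by norm_num : (5 : ℕ) ∣ 30).trans h

lemma dvd_small (p d q : ℕ) (hp : p.Prime) (h30 : 30 ∣ q) (hd : d = 2 ∨ d = 4 ∨ d = 6 ∨ d = 8 ∨ d = 10)
    (h : p ∣ d) : p ∣ q := by
  rcases hd with rfl | rfl | rfl | rfl | rfl
  · exact h.trans (two_dvd h30)
  · have : p ∣ 2 ^ 2 := by norm_num; exact h
    exact (hp.dvd_of_dvd_pow this).trans (two_dvd h30)
  · exact h.trans ((by norm_num : (6 : ℕ) ∣ 30).trans h30)
  · have : p ∣ 2 ^ 3 := by norm_num; exact h
    exact (hp.dvd_of_dvd_pow this).trans (two_dvd h30)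
  · exact h.trans ((by norm_num : (10 : ℕ) ∣ 30).trans h30)

lemma fam (q : ℕ) (h30 : 30 ∣ q) : Fam 4 10 q D where
  card := by
    intro i
    rcases D_cases i with h | h <;> rw [h] <;> rfl
  le := by
    intro i h hh
    rcases D_cases i with h1 | h1 <;> rw [h1] at hh <;> simp at hh <;> omega
  zero := by
    intro i
    rcases D_cases i with h | h <;> rw [h] <;> simp
  inj := by
    intro i h hh h' hh' hlt p hp hd
    apply dvd_small p (h' - h) q hp h30 _ hd
    rcases D_cases i with h1 | h1 <;> rw [h1] at hh hh' <;> simp at hh hh' <;> omega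
  adm := by
    intro p hp hpq
    by_contra hcon
    rw [not_lt] at hcon
    have h2 := hp.two_le
    have h3 : p = 2 ∨ p = 3 ∨ p = 4 := by omega
    rcases h3 with rfl | rfl | rfl
    · exact hpq (two_dvd h30)
    · exact hpq (three_dvd h30)
    · norm_num at hp

lemma first_mod {w n : ℕ} (hw : 3 ≤ w) (h : First w n) : n % 6 = 5 := by
  have h1 : ¬ 2 ∣ n := h.1 2 Nat.prime_two (by omega)
  have h2 : ¬ 3 ∣ n := h.1 3 Nat.prime_three hw
  have h3 : ¬ 3 ∣ n + 2 := h.2.1 3 Nat.prime_three hw
  have h4 : n % 2 = 1 := by omega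
  have h5 : n % 3 = 2 := by omega
  omega

lemma second_mod {w n : ℕ} (hw : 3 ≤ w) (h : Second w n) : n % 6 = 1 := by
  have h1 : ¬ 2 ∣ n := h.1 2 Nat.prime_two (by omega)
  have h2 : ¬ 3 ∣ n := h.1 3 Nat.prime_three hw
  have h3 : ¬ 3 ∣ n + 4 := h.2.1 3 Nat.prime_three hw
  have h4 : n % 2 = 1 := by omega
  have h5 : n % 3 = 1 := by omega
  omega

lemma quad_iff {w q : ℕ} (hw : 3 ≤ w) (h30 : 30 ∣ q) (n : ℕ) :
    Quadruple w n ↔ ∀ h ∈ D (n % q), ∀ p : ℕ, p.Prime → p ≤ w → ¬ p ∣ n + h := by
  have hmod : n % q % 6 = n % 6 := Nat.mod_mod_of_dvd n ((by norm_num : (6 : ℕ) ∣ 30).trans h30)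
  constructor
  · intro h
    rcases h with h | h
    · have h1 := first_mod hw h
      have hD : D (n % q) = {0, 2, 6, 8} := by
        unfold D
        rw [if_pos (by omega)]
      rw [hD]
      intro x hx
      simp only [mem_insert, mem_singleton] at hx
      rcases hx with rfl | rfl | rfl | rfl
      · exact h.1
      · exact h.2.1
      · exact h.2.2.1
      · exact h.2.2.2
    · have h1 := second_mod hw h
      have hD : D (n % q) = {0, 4, 6, 10} := by
        unfold D
        rw [if_neg (by omega)]
      rw [hD]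
      intro x hx
      simp only [mem_insert, mem_singleton] at hx
      rcases hx with rfl | rfl | rfl | rfl
      · exact h.1
      · exact h.2.1
      · exact h.2.2.1
      · exact h.2.2.2
  · intro h
    rcases D_cases (n % q) with h1 | h1
    · rw [h1] at h
      exact Or.inl ⟨h 0 (by simp), h 2 (by simp), h 6 (by simp), h 8 (by simp)⟩
    · rw [h1] at h
      exact Or.inr ⟨h 0 (by simp), h 4 (by simp), h 6 (by simp), h 10 (by simp)⟩

lemma cop_iff (q a b c d : ℕ) : Nat.Coprime (a * b * c * d) q ↔
    ∀ p : ℕ, p.Prime → p ∣ q → ¬ p ∣ a ∧ ¬ p ∣ b ∧ ¬ p ∣ c ∧ ¬ p ∣ d := by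
  constructor
  · intro h p hp hpq
    have key : ¬ p ∣ a * b * c * d := by
      intro hd
      have h1 := Nat.dvd_gcd hd hpq
      rw [Nat.Coprime] at h
      rw [h] at h1
      exact hp.one_lt.ne' (Nat.dvd_one.1 h1)
    refine ⟨fun h1 => key (((h1.mul_right b).mul_right c).mul_right d),
      fun h1 => key (((h1.mul_left a).mul_right c).mul_right d),
      fun h1 => key ((h1.mul_left (a * b)).mul_right d), fun h1 => key (h1.mul_left (a * b * c))⟩
  · intro h
    rw [Nat.coprime_iff_gcd_eq_one]
    by_contra hcon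
    obtain ⟨p, hp, hpd⟩ := Nat.exists_prime_and_dvd hcon
    obtain ⟨h1, h2, h3, h4⟩ := h p hp (hpd.trans (Nat.gcd_dvd_right _ _))
    have h5 := hpd.trans (Nat.gcd_dvd_left _ _)
    rcases hp.dvd_mul.1 h5 with h6 | h6
    · rcases hp.dvd_mul.1 h6 with h7 | h7
      · rcases hp.dvd_mul.1 h7 with h8 | h8
        · exact h1 h8
        · exact h2 h8
      · exact h3 h7
    · exact h4 h6

lemma residues_eq (q : ℕ) (h30 : 30 ∣ q) : residues q = rs q D := by
  classical
  have h2 : (2 : ℕ) ∣ q := two_dvd h30
  have h3 : (3 : ℕ) ∣ q := three_dvd h30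
  ext b
  unfold residues rs
  rw [mem_filter, mem_filter, cop_iff q, cop_iff q]
  apply and_congr_right
  intro _
  constructor
  · rintro (⟨h5, h⟩ | ⟨h5, h⟩) p hp hpq x hx
    · have hD : D b = {0, 2, 6, 8} := by unfold D; rw [if_pos h5]
      rw [hD] at hx
      obtain ⟨a1, a2, a3, a4⟩ := h p hp hpq
      simp only [mem_insert, mem_singleton] at hx
      rcases hx with rfl | rfl | rfl | rfl
      · exact a1
      · exact a2
      · exact a3
      · exact a4
    · have hD : D b = {0, 4, 6, 10} := by unfold D; rw [if_neg (by omega)]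
      rw [hD] at hx
      obtain ⟨a1, a2, a3, a4⟩ := h p hp hpq
      simp only [mem_insert, mem_singleton] at hx
      rcases hx with rfl | rfl | rfl | rfl
      · exact a1
      · exact a2
      · exact a3
      · exact a4
  · intro h
    by_cases h5 : b % 6 = 5
    · left
      have hD : D b = {0, 2, 6, 8} := by unfold D; rw [if_pos h5]
      rw [hD] at h
      exact ⟨h5, fun p hp hpq => ⟨h p hp hpq 0 (by simp), h p hp hpq 2 (by simp), h p hp hpq 6 (by simp),
        h p hp hpq 8 (by simp)⟩⟩
    · right
      have hD : D b = {0, 4, 6, 10} := by unfold D; rw [if_neg h5]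
      rw [hD] at h
      refine ⟨?_, fun p hp hpq => ⟨h p hp hpq 0 (by simp), h p hp hpq 4 (by simp), h p hp hpq 6 (by simp),
        h p hp hpq 10 (by simp)⟩⟩
      have b1 := h 2 Nat.prime_two h2 0 (by simp)
      have b2 := h 3 Nat.prime_three h3 0 (by simp)
      have b3 := h 3 Nat.prime_three h3 4 (by simp)
      have b4 : b % 2 = 1 := by omega
      have b5 : b % 3 = 1 := by omega
      omega

lemma res30 : residues 30 = {7, 11, 13} := by decide

lemma filter30 (w : ℕ) : (Icc 1 w).filter (fun p => p.Prime ∧ ¬ p ∣ 30) = (Icc 7 w).filter Nat.Prime := by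
  ext p
  rw [mem_filter, mem_filter, mem_Icc, mem_Icc]
  constructor
  · rintro ⟨⟨h1, h2⟩, hp, h3⟩
    refine ⟨⟨?_, h2⟩, hp⟩
    by_contra hcon
    rw [not_le] at hcon
    interval_cases p
    · norm_num at hp
    · exact h3 (by norm_num)
    · exact h3 (by norm_num)
    · norm_num at hp
    · exact h3 (by norm_num)
    · norm_num at hp
  · rintro ⟨⟨h1, h2⟩, hp⟩
    refine ⟨⟨by omega, h2⟩, hp, ?_⟩
    intro hd
    have h3 : p ∣ 2 * 3 * 5 := by norm_num; exact hd
    rcases hp.dvd_mul.1 h3 with h4 | h4
    · rcases hp.dvd_mul.1 h4 with h5 | h5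
      · have := Nat.le_of_dvd (by norm_num) h5
        omega
      · have := Nat.le_of_dvd (by norm_num) h5
        omega
    · have := Nat.le_of_dvd (by norm_num) h4
      omega

lemma density_eq (w : ℕ) : densityQ w 30 = density w := by
  unfold densityQ density
  rw [res30, filter30]
  have h1 : (({7, 11, 13} : Finset ℕ).card : ℝ) = 3 := by
    have : ({7, 11, 13} : Finset ℕ).card = 3 := by decide
    rw [this]
    norm_num
  rw [h1]
  norm_num

/-- the law for the residues -/
lemma law_res (q l : ℕ) (hq : 1 ≤ q) (h30 : 30 ∣ q) (ε : ℝ) (hε : 0 < ε) : ∃ K w₀ : ℕ, ∀ w : ℕ, w₀ ≤ w →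
    ∀ Z Y : ℕ, w ^ K ≤ Y → ∀ b s T : ℕ → ℕ, (∀ j ≤ l, b j ∈ residues q) → (∀ j < l, s j ≤ T j) →
      |(cG (Quadruple w) q l b s T Z Y : ℝ) - densityQ w q * Y / (residues q).card ^ (l + 1) *
          ∏ j ∈ range l, (Real.exp (-(densityQ w q * s j)) - Real.exp (-(densityQ w q * T j)))| ≤
        ε * (densityQ w q * Y / (residues q).card ^ (l + 1)) := by
  obtain ⟨K, y1, hK⟩ := law_fam l (by norm_num) hq (fam q h30) ε hε
  refine ⟨K, max y1 3, ?_⟩
  intro w hw Z Y hY b s T hb hsT
  have hw3 : 3 ≤ w := (le_max_right _ _).trans hw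
  rw [residues_eq q h30] at hb
  have hmain := hK w ((le_max_left _ _).trans hw) Z Y hY b s T hb hsT (residues q).card (densityQ w q)
    (by rw [residues_eq q h30]) (by
      unfold densityQ
      norm_num)
  have hG : Quadruple w = fun m => ∀ h ∈ D (m % q), ∀ p : ℕ, p.Prime → p ≤ w → ¬ p ∣ m + h := by
    funext m
    exact propext (quad_iff hw3 h30 m)
  rw [hG]
  exact hmain

lemma five_le {w n : ℕ} (hw : 5 ≤ w) (h : Rough w n) : ¬ 5 ∣ n := h 5 Nat.prime_five hw

lemma first_iff {w n : ℕ} (hw : 5 ≤ w) (hn : Quadruple w n) : First w n ↔ n % 30 = 11 := by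
  constructor
  · intro h
    have h1 := first_mod (by omega) h
    have h2 := five_le hw h.1
    have h3 := five_le hw h.2.1
    have h4 := five_le hw h.2.2.1
    have h5 := five_le hw h.2.2.2
    have h6 : n % 5 = 1 := by
      have h7 : n % 5 = 0 ∨ n % 5 = 1 ∨ n % 5 = 2 ∨ n % 5 = 3 ∨ n % 5 = 4 := by omega
      rcases h7 with h7 | h7 | h7 | h7 | h7
      · exfalso; apply h2; omega
      · exact h7
      · exfalso; apply h5; omega
      · exfalso; apply h3; omega
      · exfalso; apply h4; omega
    omega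
  · intro h
    rcases hn with h1 | h1
    · exact h1
    · have := second_mod (by omega) h1
      omega

lemma second_iff {w n : ℕ} (hw : 5 ≤ w) (hn : Quadruple w n) : ¬ First w n ↔ (n % 30 = 7 ∨ n % 30 = 13) := by
  constructor
  · intro h
    have h0 : Second w n := by
      rcases hn with h1 | h1
      · exact absurd h1 h
      · exact h1
    have h1 := second_mod (by omega) h0
    have h2 := five_le hw h0.1
    have h3 := five_le hw h0.2.1
    have h4 := five_le hw h0.2.2.1
    have h6 : n % 5 = 2 ∨ n % 5 = 3 := by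
      have h7 : n % 5 = 0 ∨ n % 5 = 1 ∨ n % 5 = 2 ∨ n % 5 = 3 ∨ n % 5 = 4 := by omega
      rcases h7 with h7 | h7 | h7 | h7 | h7
      · exfalso; apply h2; omega
      · exfalso; apply h3; omega
      · exact Or.inl h7
      · exact Or.inr h7
      · exfalso; apply h4; omega
    omega
  · intro h h1
    have := first_mod (by omega) h1
    omega

/-- **The shapes of consecutive almost prime quadruples.** -/
theorem result :
    -- quadruples of primes
    (∀ w n : ℕ, w < n → n.Prime → (n + 2).Prime → (n + 6).Prime → (n + 8).Prime → First w n) ∧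
    (∀ w n : ℕ, w < n → n.Prime → (n + 4).Prime → (n + 6).Prime → (n + 10).Prime → Second w n) ∧
    -- the members of the quadruples are almost primes
    (∀ w s n m : ℕ, 0 < n → n + 10 ≤ w ^ s →
      (First w n ∧ (m = n ∨ m = n + 2 ∨ m = n + 6 ∨ m = n + 8) ∨
        Second w n ∧ (m = n ∨ m = n + 4 ∨ m = n + 6 ∨ m = n + 10)) → m.primeFactorsList.length ≤ s) ∧
    -- the two shapes exclude each other
    (∀ w n : ℕ, 3 ≤ w → ¬ (First w n ∧ Second w n)) ∧
    -- the law of the shapes and the distances
    (∀ l : ℕ, ∀ ε : ℝ, 0 < ε → ∃ K w₀ : ℕ, ∀ w : ℕ, w₀ ≤ w → ∀ Z Y : ℕ, w ^ K ≤ Y →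
      ∀ (σ : ℕ → Bool) (s T : ℕ → ℕ), (∀ j < l, s j ≤ T j) →
        |(shapeCount w l σ s T Z Y : ℝ) - density w * Y *
            (∏ j ∈ range (l + 1), (if σ j = true then (1 / 3 : ℝ) else 2 / 3)) *
            ∏ j ∈ range l, (Real.exp (-(density w * s j)) - Real.exp (-(density w * T j)))| ≤
          ε * (density w * Y)) ∧
    -- the law of the residues and the distances
    (∀ q l : ℕ, 1 ≤ q → 30 ∣ q → ∀ ε : ℝ, 0 < ε → ∃ K w₀ : ℕ, ∀ w : ℕ, w₀ ≤ w →
      ∀ Z Y : ℕ, w ^ K ≤ Y → ∀ b s T : ℕ → ℕ, (∀ j ≤ l, b j ∈ residues q) → (∀ j < l, s j ≤ T j) →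
        |(residueCount w q l b s T Z Y : ℝ) - densityQ w q * Y / (residues q).card ^ (l + 1) *
            ∏ j ∈ range l, (Real.exp (-(densityQ w q * s j)) - Real.exp (-(densityQ w q * T j)))| ≤
          ε * (densityQ w q * Y / (residues q).card ^ (l + 1))) ∧
    (∀ w : ℕ, densityQ w 30 = density w) := by
  refine ⟨?_, ?_, ?_, ?_, ?_, ?_, density_eq⟩
  · intro w n hwn h1 h2 h3 h4
    exact ⟨prime_rough w n hwn h1, prime_rough w _ (by omega) h2, prime_rough w _ (by omega) h3,
      prime_rough w _ (by omega) h4⟩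
  · intro w n hwn h1 h2 h3 h4
    exact ⟨prime_rough w n hwn h1, prime_rough w _ (by omega) h2, prime_rough w _ (by omega) h3,
      prime_rough w _ (by omega) h4⟩
  · intro w s n m hn hns h
    rcases h with ⟨⟨h1, h2, h3, h4⟩, rfl | rfl | rfl | rfl⟩ | ⟨⟨h1, h2, h3, h4⟩, rfl | rfl | rfl | rfl⟩
    · exact few w s _ (by omega) (by omega) h1
    · exact few w s _ (by omega) (by omega) h2
    · exact few w s _ (by omega) (by omega) h3
    · exact few w s _ (by omega) (by omega) h4
    · exact few w s _ (by omega) (by omega) h1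
    · exact few w s _ (by omega) (by omega) h2
    · exact few w s _ (by omega) (by omega) h3
    · exact few w s _ (by omega) (by omega) h4
  · rintro w n hw ⟨h1, h2⟩
    have := first_mod hw h1
    have := second_mod hw h2
    omega
  · intro l ε hε
    obtain ⟨K, w0, hK⟩ := law_res 30 l (by norm_num) dvd_rfl ε hε
    refine ⟨K, max w0 5, ?_⟩
    intro w hw Z Y hY σ s T hsT
    have hw5 : 5 ≤ w := (le_max_right _ _).trans hw
    obtain ⟨S, hS⟩ : ∃ S : ℕ → Finset ℕ, S = fun j => if σ j = true then {11} else {7, 13} := ⟨_, rfl⟩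
    have hcount : shapeCount w l σ s T Z Y = cS (Quadruple w) 30 l S s T Z Y := by
      have := cS_congr (Quadruple w) 30 l S (fun j m => (First w m ↔ σ j = true)) s T Z Y (by
        intro j _ m hm
        rw [hS]
        simp only
        by_cases hσ : σ j = true
        · rw [if_pos hσ, mem_singleton, ← first_iff hw5 hm]
          simp [hσ]
        · rw [if_neg hσ, mem_insert, mem_singleton, ← second_iff hw5 hm]
          simp [hσ])
      rw [← this]
      rfl
    have hd0 : 0 ≤ density w := by
      unfold density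
      apply mul_nonneg (by norm_num)
      apply Finset.prod_nonneg
      intro p hp
      rw [mem_filter, mem_Icc] at hp
      have hp7 : (7 : ℝ) ≤ p := by exact_mod_cast hp.1.1
      rw [sub_nonneg, div_le_one (by linarith)]
      linarith
    have hmain := law_sets (Quadruple w) 30 l (residues 30) S (by
        intro j _
        rw [hS, res30]
        simp only
        split_ifs <;> decide) s T Z Y (density w * Y)
      (∏ j ∈ range l, (Real.exp (-(density w * s j)) - Real.exp (-(density w * T j)))) ε (residues 30).card rfl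
      (by rw [res30]; norm_num) (mul_nonneg hd0 (Nat.cast_nonneg _)) hε.le (by
        intro b hb
        have := hK w ((le_max_left _ _).trans hw) Z Y hY b s T hb hsT
        rw [density_eq] at this
        exact this)
    rw [hcount]
    have hfac : ∀ j, ((S j).card : ℝ) / ((residues 30).card : ℝ) = if σ j = true then (1 / 3 : ℝ) else 2 / 3 := by
      intro j
      have h3 : (residues 30).card = 3 := by rw [res30]; decide
      rw [hS, h3]
      simp only
      split_ifs
      · norm_num
      · have : ({7, 13} : Finset ℕ).card = 2 := by decide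
        rw [this]
        norm_num
    simp only [hfac] at hmain
    exact hmain
  · intro q l hq h30 ε hε
    exact law_res q l hq h30 ε hε

end Pool.Agent.Results.MP_092512_nt.OneThirdTwoThirds
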