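import Mathlib
import Pool.Agent.U364.RP.Win

/-!
# Primes `p` with `p + 4, p + 6, p + 10` almost prime in all windows around a positive proportion of the integers

The second shape of the prime quadruples of the question. There are `r` and `c₁, c₂, K > 0` such that a positive proportion of all
integers `n` is regular: EVERY interval `(a, b]` with `a ≤ n ≤ b` and `K log ^ 4 n ≤ b - a ≤ n` contains between
`c₁ (b - a) / log ^ 4 n` and `c₂ (b - a) / log ^ 4 n` PRIMES `p` for which `p + 4`, `p + 6` and `p + 10` have at most `r` prime factors,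
all larger than `n ^ (1 / r)`. So the order of magnitude of the Hardy-Littlewood formula for this shape is right, for almost
prime quadruples, in all windows around these `n`, at all scales down to a constant times the average distance.

Proof: the theorem on regular windows (starting files, `Pool.Agent.W182.PW`) for these forms.
-/

set_option autoImplicit false

namespace Pool.Agent.Results.MP_092512_nt.RegularWindows

open Finset Filter

/-- `p` is prime and `p + 4`, `p + 6`, `p + 10` have at most `r` prime factors (with multiplicity), all of them larger than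
`z`. -/
def AlmostPrimeTuple (r : ℕ) (z : ℝ) (p : ℕ) : Prop :=
  p.Prime ∧ ∀ h ∈ ({4, 6, 10} : Finset ℕ), (p + h).primeFactorsList.length ≤ r ∧
    ∀ q : ℕ, q.Prime → q ∣ p + h → z < (q : ℝ)

open Classical in
/-- `n` is regular. -/
def Regular (r : ℕ) (c₁ c₂ K : ℝ) (n : ℕ) : Prop :=
  ∀ a b : ℕ, a ≤ n → n ≤ b → K * Real.log n ^ 4 ≤ (b : ℝ) - a → (b : ℝ) - a ≤ n →
    c₁ * ((b : ℝ) - a) / Real.log n ^ 4 ≤
      (((Finset.Ioc a b).filter (fun p => AlmostPrimeTuple r ((n : ℝ) ^ (1 / (r : ℝ))) p)).card : ℝ) ∧
    (((Finset.Ioc a b).filter (fun p => AlmostPrimeTuple r ((n : ℝ) ^ (1 / (r : ℝ))) p)).card : ℝ) ≤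
      c₂ * ((b : ℝ) - a) / Real.log n ^ 4

open Classical in
/-- **Regular windows.** For some `r` and positive `c₁, c₂, K, κ` and all large `x` at least `κ x`
of the integers `n` in `[1, x]` are regular. -/
theorem result :
    ∃ (r : ℕ) (c₁ c₂ K κ : ℝ), 0 < c₁ ∧ 0 < c₂ ∧ 0 < K ∧ 0 < κ ∧
    ∀ᶠ x : ℕ in atTop, κ * x ≤ (((Finset.Icc 1 x).filter (fun n => Regular r c₁ c₂ K n)).card : ℝ) := by
  exact Pool.Agent.U364.RP.win_shift {4, 6, 10} (by simp) (Pool.Agent.U364.RP.adm_shift _ 13 37 (by
    norm_num [Finset.prod_insert])) AlmostPrimeTuple (fun _ _ _ => Iff.rfl) 4 (by simp)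

end Pool.Agent.Results.MP_092512_nt.RegularWindows
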