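import Pool.Agent.U485.SM.Quad

/-!
# Both shapes of prime quadruples in sieved random models of the primes

`T` is nondecreasing, tends to infinity, `T(n) = n^{o(1)}`; every `n` without prime factors `≤ T(n)` is chosen
independently with probability `min(1, ∏_{p ≤ T(n)} (1 - 1/p)⁻¹ / log n)`. Almost surely both asymptotic formulas of the
problem hold for the chosen numbers, on `[1, n]` and in all windows `(x, x + h]`, `x^η ≤ h ≤ x`.

Project HT: packages of helper891, helper660, helper139, helper803, helper445, helper373, helper741, helper668,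
helper333, helper200, helper44, helper690, helper934.
-/

set_option autoImplicit false

namespace Pool.Agent.Results.MP_092512_nt.WindowsInRandomModels

open MeasureTheory Filter Topology Pool.Agent.U485.SM

/-- the number of the `p` in `(x, y]` with `p, p + a, p + b, p + c` in `Q` -/
noncomputable def N (Q : Set ℕ) (a b c x y : ℕ) : ℕ :=
  {p : ℕ | x < p ∧ p ≤ y ∧ p ∈ Q ∧ p + a ∈ Q ∧ p + b ∈ Q ∧ p + c ∈ Q}.ncard

theorem N_eq (Q : Set ℕ) (a b c x y : ℕ) : num Q {0, a, b, c} x y = N Q a b c x y := by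
  unfold num N
  congr 1
  ext p
  simp only [Set.mem_ofPred_eq, Finset.mem_insert, Finset.mem_singleton, forall_eq_or_imp, forall_eq, add_zero]

/-- **Both shapes of quadruples, up to `x` and in all short windows, in sieved random models.** -/
theorem result : ∃ D : ℝ, 0 < D ∧
    Tendsto (fun y : ℕ => 27 / 2 * ∏ p ∈ (Finset.Icc 5 y).filter Nat.Prime,
      ((p : ℝ) ^ 3 * (p - 4) / (p - 1) ^ 4)) atTop (𝓝 D) ∧
    ∀ (Ω : Type) [MeasurableSpace Ω] (μ : Measure Ω) [IsProbabilityMeasure μ] (T : ℕ → ℕ) (E : ℕ → Set Ω),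
      Monotone T → Tendsto T atTop atTop → (∀ ε : ℝ, 0 < ε → ∀ᶠ n : ℕ in atTop, (T n : ℝ) ≤ (n : ℝ) ^ ε) →
      Model μ T E → ∀ᵐ ω ∂μ,
        Tendsto (fun x : ℕ => (N {m | ω ∈ E m} 2 6 8 0 x : ℝ) * (Real.log x) ^ 4 / x) atTop (𝓝 D) ∧
        Tendsto (fun x : ℕ => (N {m | ω ∈ E m} 4 6 10 0 x : ℝ) * (Real.log x) ^ 4 / x) atTop (𝓝 (2 * D)) ∧
        ∀ δ η : ℝ, 0 < δ → 0 < η → ∀ᶠ x : ℕ in atTop, ∀ h : ℕ, (x : ℝ) ^ η ≤ h → h ≤ x →
          |(N {m | ω ∈ E m} 2 6 8 x (x + h) : ℝ) * (Real.log x) ^ 4 / h - D| ≤ δ ∧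
          |(N {m | ω ∈ E m} 4 6 10 x (x + h) : ℝ) * (Real.log x) ^ 4 / h - 2 * D| ≤ δ := by
  obtain ⟨K, hK0, hK, h1⟩ := co4
  have h2 := PP_two_lim h1
  refine ⟨27 / 2 * K, by positivity, hK.const_mul _, ?_⟩
  intro Ω _ μ _ T E hT hTt hTs hE
  filter_upwards [as_H hT hTt hTs hE] with ω hω
  have c1 : ({0, 2, 6, 8} : Finset ℕ).card = 4 := by decide
  have c2 : ({0, 4, 6, 10} : Finset ℕ).card = 4 := by decide
  refine ⟨?_, ?_, ?_⟩
  · have g := ful _ {0, 2, 6, 8} _ fun d hd => hω {0, 2, 6, 8} _ h1 d (1 / 2) hd (by norm_num)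
    rw [c1] at g
    exact g.congr fun n => by rw [N_eq]
  · have g := ful _ {0, 4, 6, 10} _ fun d hd => hω {0, 4, 6, 10} _ h2 d (1 / 2) hd (by norm_num)
    rw [c2] at g
    exact g.congr fun n => by rw [N_eq]
  · intro δ η hδ hη
    filter_upwards [hω {0, 2, 6, 8} _ h1 δ η hδ hη, hω {0, 4, 6, 10} _ h2 δ η hδ hη,
      eventually_ge_atTop 1] with x g1 g2 hx1 h h3 h4
    have hx0 : (0 : ℝ) < x := by exact_mod_cast hx1
    have hh : (0 : ℝ) < h := lt_of_lt_of_le (Real.rpow_pos_of_pos hx0 η) h3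
    have g3 := g1 h h3 h4
    have g4 := g2 h h3 h4
    rw [c1, N_eq] at g3
    rw [c2, N_eq] at g4
    exact ⟨quot hh g3, quot hh g4⟩

end Pool.Agent.Results.MP_092512_nt.WindowsInRandomModels
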